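import Mathlib

/-!
# Q1 of MP_2734af_lc has a negative answer

For ultrafilters `F`, `G` on the positive integers write `F ~∣ G` when `A↑ ∈ G` for every `A ∈ F`.
We produce (for every prescribed amount `K` of enlargement) an ultrapower `*ℕ = ℕ^J / W` of the
positive integers which is an enlargement, two ultrafilters `F ~∣ G` and an element `x` of the
monad of `F` which `*`-divides no element of the monad of `G`.
-/

open Filter

namespace Pool.Agent.Results.MP_2734af_lc.NegativeAnswer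

universe u v w

/-- `star W A` is the nonstandard extension `*A` of the set `A ⊆ Y` in the ultrapower
`*Y = Y^J / W`, which is Mathlib's `Filter.Germ W Y`. -/
def star {J : Type u} {Y : Type v} (W : Ultrafilter J) (A : Set Y) :
    Set (Germ (W : Filter J) Y) :=
  {x | x.LiftPred (fun a => a ∈ A)}

/-- A family of sets indexed by `K` has the finite intersection property. -/
def FIP {K : Type u} {Y : Type v} (A : K → Set Y) : Prop :=
  ∀ s : Finset K, (⋂ k ∈ s, A k).Nonempty

/-- The ultrapower by `W` is an enlargement with respect to all `K`-indexed families of subsets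
of `Y`: every such family with the finite intersection property has a common element in the
nonstandard extensions of its members. -/
def Enlarges {J : Type u} (W : Ultrafilter J) (K : Type w) (Y : Type v) : Prop :=
  ∀ A : K → Set Y, FIP A → (⋂ k, star W (A k)).Nonempty

/-- The monad `μ(F) = ⋂_{A ∈ F} *A` of an ultrafilter `F` on the positive integers. -/
def monad {J : Type u} (W : Ultrafilter J) (F : Ultrafilter ℕ+) :
    Set (Germ (W : Filter J) ℕ+) :=
  ⋂ A ∈ F, star W A

/-- `A↑`: the positive integers divisible by some element of `A`. -/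
def up (A : Set ℕ+) : Set ℕ+ := {n | ∃ a ∈ A, a ∣ n}

/-- `F ~∣ G`. -/
def TildeDvd (F G : Ultrafilter ℕ+) : Prop := ∀ A ∈ F, up A ∈ G

/-! ### Auxiliary objects -/

/-- the `n`-th odd prime, as a positive integer -/
noncomputable def pr (n : ℕ) : ℕ+ :=
  ⟨Nat.nth Nat.Prime (n + 1), (Nat.prime_nth_prime (n + 1)).pos⟩

theorem pr_prime (n : ℕ) : (pr n : ℕ).Prime := Nat.prime_nth_prime (n + 1)

theorem pr_inj {m n : ℕ} (h : (pr m : ℕ) = pr n) : m = n := by
  have h1 : Nat.nth Nat.Prime (m + 1) = Nat.nth Nat.Prime (n + 1) := h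
  have := (Nat.nth_injective Nat.infinite_setOfPred_prime) h1
  omega

theorem pr_ne_two (n : ℕ) : (pr n : ℕ) ≠ 2 := by
  intro h
  have h1 : Nat.nth Nat.Prime (n + 1) = 2 := h
  rw [← Nat.nth_prime_zero_eq_two] at h1
  have := (Nat.nth_injective Nat.infinite_setOfPred_prime) h1
  omega

/-- the coding of pairs by positive integers `p_n 2^k` -/
noncomputable def code (q : ℕ × ℕ) : ℕ+ := pr q.1 * 2 ^ q.2

theorem dvd_code {m n k : ℕ} (h : pr m ∣ code (n, k)) : m = n := by
  have h1 : (pr m : ℕ) ∣ (pr n : ℕ) * 2 ^ k := by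
    have := PNat.dvd_iff.1 h
    simpa [code] using this
  rcases (pr_prime m).dvd_mul.1 h1 with h2 | h2
  · exact pr_inj ((Nat.prime_dvd_prime_iff_eq (pr_prime m) (pr_prime n)).1 h2)
  · exact absurd ((Nat.prime_dvd_prime_iff_eq (pr_prime m) Nat.prime_two).1
      ((pr_prime m).dvd_of_dvd_pow h2)) (pr_ne_two m)

theorem code_inj {q q' : ℕ × ℕ} (h : code q = code q') : q = q' := by
  obtain ⟨n, k⟩ := q
  obtain ⟨n', k'⟩ := q'
  have h1 : n = n' := by
    apply dvd_code (k := k')
    rw [← h]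
    exact Dvd.intro _ rfl
  subst h1
  have h2 : (pr n : ℕ+) * 2 ^ k = pr n * 2 ^ k' := h
  have h3 : (2 : ℕ+) ^ k = 2 ^ k' := mul_left_cancel h2
  have h4 : (2 : ℕ) ^ k = 2 ^ k' := by
    have := congrArg (fun t : ℕ+ => (t : ℕ)) h3
    simpa using this
  have h5 : k = k' := Nat.pow_right_injective (le_refl 2) h4
  rw [h5]

/-- the number of `k < n` for which `(n, k)` is missing from `S` -/
noncomputable def miss (S : Set (ℕ × ℕ)) (n : ℕ) : ℕ :=
  {k | k < n ∧ (n, k) ∉ S}.ncard

theorem miss_fin (S : Set (ℕ × ℕ)) (n : ℕ) : {k | k < n ∧ (n, k) ∉ S}.Finite :=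
  (Set.finite_lt_nat n).subset fun _ hk => hk.1

/-- the filter of sets missing boundedly many points of almost all fibres -/
noncomputable def base : Filter (ℕ × ℕ) where
  sets := {S | ∃ c : ℕ, ∀ᶠ n in (hyperfilter ℕ : Filter ℕ), miss S n ≤ c}
  univ_sets := ⟨0, Eventually.of_forall fun n => by simp [miss]⟩
  sets_of_superset := by
    rintro S T ⟨c, hc⟩ hST
    refine ⟨c, hc.mono fun n hn => le_trans ?_ hn⟩
    exact Set.ncard_le_ncard (fun k hk => ⟨hk.1, fun h => hk.2 (hST h)⟩) (miss_fin S n)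
  inter_sets := by
    rintro S T ⟨c, hc⟩ ⟨d, hd⟩
    refine ⟨c + d, (hc.and hd).mono fun n hn => ?_⟩
    have h1 : {k | k < n ∧ (n, k) ∉ S ∩ T} ⊆
        {k | k < n ∧ (n, k) ∉ S} ∪ {k | k < n ∧ (n, k) ∉ T} := by
      rintro k ⟨hk, hk'⟩
      by_cases hS : (n, k) ∈ S
      · exact Or.inr ⟨hk, fun hT => hk' ⟨hS, hT⟩⟩
      · exact Or.inl ⟨hk, hS⟩
    calc miss (S ∩ T) n
        ≤ ({k | k < n ∧ (n, k) ∉ S} ∪ {k | k < n ∧ (n, k) ∉ T}).ncard :=
          Set.ncard_le_ncard h1 ((miss_fin S n).union (miss_fin T n))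
      _ ≤ miss S n + miss T n := Set.ncard_union_le _ _
      _ ≤ c + d := add_le_add hn.1 hn.2

theorem mem_base {S : Set (ℕ × ℕ)} :
    S ∈ base ↔ ∃ c : ℕ, ∀ᶠ n in (hyperfilter ℕ : Filter ℕ), miss S n ≤ c := Iff.rfl

instance base_neBot : NeBot base := by
  rw [neBot_iff]
  intro h
  have h0 : (∅ : Set (ℕ × ℕ)) ∈ base := by rw [h]; exact mem_bot
  obtain ⟨c, hc⟩ := mem_base.1 h0
  have h1 : ∀ᶠ n in (hyperfilter ℕ : Filter ℕ), c < n :=
    Nat.hyperfilter_le_atTop (eventually_gt_atTop c)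
  obtain ⟨n, hn, hn'⟩ := (hc.and h1).exists
  have h2 : miss ∅ n = n := by
    have : {k | k < n ∧ (n, k) ∉ (∅ : Set (ℕ × ℕ))} = Set.Iio n := by
      ext k; simp
    rw [miss, this]
    simp [Set.ncard_eq_toFinset_card']
  omega

/-- The ultrafilter `F`: a nonprincipal ultrafilter concentrated on the odd primes. -/
noncomputable def FF : Ultrafilter ℕ+ := (hyperfilter ℕ).map pr

/-- The ultrafilter `G`. -/
noncomputable def GG : Ultrafilter ℕ+ := (Ultrafilter.of base).map code

theorem mem_GG_of_base {S : Set ℕ+} (h : code ⁻¹' S ∈ base) : S ∈ GG := by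
  rw [GG, Ultrafilter.mem_map]
  exact Ultrafilter.of_le base h

theorem tilde : TildeDvd FF GG := by
  intro A hA
  rw [FF, Ultrafilter.mem_map] at hA
  apply mem_GG_of_base
  refine ⟨0, ?_⟩
  have hA' : ∀ᶠ n in (hyperfilter ℕ : Filter ℕ), pr n ∈ A := hA
  refine hA'.mono fun n hn => ?_
  have : {k | k < n ∧ (n, k) ∉ code ⁻¹' up A} = ∅ := by
    ext k
    simp only [Set.mem_ofPred_eq, Set.mem_empty_iff_false, iff_false, not_and, not_not]
    intro _
    exact ⟨pr n, hn, Dvd.intro _ rfl⟩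
  rw [miss, this, Set.ncard_empty]

theorem X_mem : {y : ℕ+ | ∃ n k, k < n ∧ y = code (n, k)} ∈ GG := by
  apply mem_GG_of_base
  refine ⟨0, Eventually.of_forall fun n => ?_⟩
  have : {k | k < n ∧ (n, k) ∉ code ⁻¹' {y : ℕ+ | ∃ n k, k < n ∧ y = code (n, k)}} = ∅ := by
    ext k
    simp only [Set.mem_ofPred_eq, Set.mem_empty_iff_false, iff_false, not_and, not_not]
    intro hk
    exact ⟨n, k, hk, rfl⟩
  rw [miss, this, Set.ncard_empty]

theorem section_notMem (g : ℕ → ℕ) : {y : ℕ+ | ∃ n, y = code (n, g n)}ᶜ ∈ GG := by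
  apply mem_GG_of_base
  refine ⟨1, Eventually.of_forall fun n => ?_⟩
  have : {k | k < n ∧ (n, k) ∉ code ⁻¹' {y : ℕ+ | ∃ n, y = code (n, g n)}ᶜ} ⊆ {g n} := by
    rintro k ⟨_, hk⟩
    simp only [Set.mem_preimage, Set.mem_compl_iff, Set.mem_ofPred_eq, not_not] at hk
    obtain ⟨m, hm⟩ := hk
    have := code_inj hm
    simp only [Prod.mk.injEq] at this
    obtain ⟨h1, h2⟩ := this
    subst h1
    exact h2
  calc miss _ n ≤ ({g n} : Set ℕ).ncard := Set.ncard_le_ncard this (Set.finite_singleton _)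
    _ = 1 := Set.ncard_singleton _

/-! ### The enlargement -/

/-- the index ultrafilter of a good enlargement -/
noncomputable def UU (K : Type u) : Ultrafilter (Finset K) :=
  @Ultrafilter.of _ (atTop : Filter (Finset K)) (by classical infer_instance)

/-- the tensor product ultrafilter on `ℕ × Finset K` -/
noncomputable def WW (K : Type u) : Ultrafilter (ℕ × Finset K) :=
  (hyperfilter ℕ).bind fun n => (UU K).map fun s => (n, s)

theorem eventually_WW {K : Type u} {P : ℕ × Finset K → Prop} :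
    (∀ᶠ q in (WW K : Filter (ℕ × Finset K)), P q) ↔
      ∀ᶠ n in (hyperfilter ℕ : Filter ℕ), ∀ᶠ s in (UU K : Filter (Finset K)), P (n, s) :=
  Iff.rfl

theorem enlarges_WW (K : Type u) {L : Type w} (e : K → L) (he : Function.Surjective e)
    (Y : Type v) : Enlarges (WW K) L Y := by
  classical
  intro A hA
  choose y hy using hA
  let Yf : ℕ × Finset K → Y := fun q => y (q.2.image e)
  refine ⟨(Yf : Germ (WW K : Filter (ℕ × Finset K)) Y), ?_⟩
  rw [Set.mem_iInter]
  intro l
  obtain ⟨k, rfl⟩ := he l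
  change ∀ᶠ q in (WW K : Filter (ℕ × Finset K)), Yf q ∈ A (e k)
  rw [eventually_WW]
  refine Eventually.of_forall fun n => ?_
  have h1 : ∀ᶠ s in (UU K : Filter (Finset K)), {k} ≤ s := by
    have : ∀ᶠ s in (atTop : Filter (Finset K)), {k} ≤ s := eventually_ge_atTop {k}
    exact (Ultrafilter.of_le (atTop : Filter (Finset K))) this
  refine h1.mono fun s hs => ?_
  have h2 : e k ∈ s.image e := Finset.mem_image_of_mem e (hs (Finset.mem_singleton_self k))
  exact Set.mem_iInter₂.1 (hy (s.image e)) (e k) h2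

theorem main_aux (K : Type u) :
    ∃ x ∈ monad (WW K) FF, ∀ y ∈ monad (WW K) GG, ¬ ∃ z, y = x * z := by
  classical
  let X : ℕ × Finset K → ℕ+ := fun q => pr q.1
  refine ⟨(X : Germ (WW K : Filter (ℕ × Finset K)) ℕ+), ?_, ?_⟩
  · rw [monad, Set.mem_iInter₂]
    intro A hA
    change ∀ᶠ q in (WW K : Filter (ℕ × Finset K)), X q ∈ A
    rw [eventually_WW]
    rw [FF, Ultrafilter.mem_map] at hA
    have hA' : ∀ᶠ n in (hyperfilter ℕ : Filter ℕ), pr n ∈ A := hA
    exact hA'.mono fun n hn => Eventually.of_forall fun s => hn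
  · rintro y hy ⟨z, hz⟩
    induction y using Germ.inductionOn with | _ Y =>
    induction z using Germ.inductionOn with | _ Z =>
    have hmem : ∀ A ∈ GG, ∀ᶠ q in (WW K : Filter (ℕ × Finset K)), Y q ∈ A := by
      intro A hA
      exact Set.mem_iInter₂.1 hy A hA
    have h1 : ∀ᶠ q in (WW K : Filter (ℕ × Finset K)), Y q = X q * Z q := by
      rw [← Germ.coe_mul] at hz
      exact Germ.coe_eq.1 hz
    have h2 := h1.and (hmem _ X_mem)
    rw [eventually_WW] at h2
    have h3 : ∀ᶠ n in (hyperfilter ℕ : Filter ℕ), ∃ k, ∀ᶠ s in (UU K : Filter (Finset K)),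
        Y (n, s) = code (n, k) := by
      refine h2.mono fun n hn => ?_
      have h4 : ∀ᶠ s in (UU K : Filter (Finset K)), ∃ k ∈ Set.Iio n, Y (n, s) = code (n, k) := by
        refine hn.mono fun s hs => ?_
        obtain ⟨hs1, m, k, hk, hs2⟩ := hs
        have h5 : n = m := by
          apply dvd_code (k := k)
          rw [← hs2, hs1]
          exact Dvd.intro _ rfl
        subst h5
        exact ⟨k, hk, hs2⟩
      have h6 := (Ultrafilter.eventually_exists_mem_iff (Set.finite_Iio n)).1 h4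
      obtain ⟨k, _, hk⟩ := h6
      exact ⟨k, hk⟩
    obtain ⟨g, hg⟩ : ∃ g : ℕ → ℕ, ∀ᶠ n in (hyperfilter ℕ : Filter ℕ),
        ∀ᶠ s in (UU K : Filter (Finset K)), Y (n, s) = code (n, g n) := by
      refine ⟨fun n => if h : ∃ k, ∀ᶠ s in (UU K : Filter (Finset K)), Y (n, s) = code (n, k)
        then h.choose else 0, ?_⟩
      refine h3.mono fun n hn => ?_
      simp only [hn, dite_true]
      exact hn.choose_spec
    have h7 := hmem _ (section_notMem g)
    rw [eventually_WW] at h7
    obtain ⟨n, hn1, hn2⟩ := (hg.and h7).exists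
    obtain ⟨s, hs1, hs2⟩ := (hn1.and hn2).exists
    exact hs2 ⟨n, hs1⟩

/-- **Negative answer to Q1.** Let `K` be any index type (prescribing how strong an enlargement is
wanted).  There is an ultrapower `*ℕ = ℕ^J/W` of the positive integers such that
* it is an enlargement: for every family of sets of positive integers with the finite intersection
  property the nonstandard extensions of its members have a common element, and more generally
  the ultrapower by `W` of every set `Y` enlarges all `K`-indexed families of subsets of `Y`;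
* there are ultrafilters `F ~∣ G` and some `x ∈ μ(F)` which `*`-divides no element of `μ(G)`. -/
theorem result (K : Type u) : ∃ (J : Type u) (W : Ultrafilter J),
    (∀ 𝒜 : Set (Set ℕ+), FIP (fun A : 𝒜 => (A : Set ℕ+)) → (⋂ A ∈ 𝒜, star W A).Nonempty) ∧
    (∀ Y : Type v, Enlarges W K Y) ∧
    ∃ F G : Ultrafilter ℕ+, TildeDvd F G ∧
      ∃ x ∈ monad W F, ∀ y ∈ monad W G, ¬ ∃ z : Germ (W : Filter J) ℕ+, y = x * z := by
  classical
  refine ⟨ℕ × Finset (K ⊕ ULift.{u} (Set ℕ+) ⊕ PUnit.{u+1}), WW _, ?_, ?_, FF, GG, tilde, main_aux _⟩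
  · intro 𝒜 h𝒜
    rcases 𝒜.eq_empty_or_nonempty with h0 | ⟨A₀, hA₀⟩
    · subst h0
      exact ⟨Germ.ofFun (fun _ => 1), by simp⟩
    · have := enlarges_WW (K ⊕ ULift.{u} (Set ℕ+) ⊕ PUnit.{u+1}) (L := 𝒜)
        (fun t => match t with
          | Sum.inl _ => ⟨A₀, hA₀⟩
          | Sum.inr (Sum.inl B) => if h : B.down ∈ 𝒜 then ⟨B.down, h⟩ else ⟨A₀, hA₀⟩
          | Sum.inr (Sum.inr _) => ⟨A₀, hA₀⟩)
        (by
          rintro ⟨B, hB⟩
          refine ⟨Sum.inr (Sum.inl ⟨B⟩), ?_⟩
          simp [hB]) ℕ+ _ h𝒜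
      obtain ⟨x, hx⟩ := this
      refine ⟨x, ?_⟩
      rw [Set.mem_iInter₂]
      intro A hA
      exact Set.mem_iInter.1 hx ⟨A, hA⟩
  · intro Y
    rcases isEmpty_or_nonempty K with hK | ⟨⟨k₀⟩⟩
    · intro A hA
      obtain ⟨y, _⟩ := hA ∅
      exact ⟨Germ.ofFun (fun _ => y), by simp⟩
    · exact enlarges_WW _ (fun t => match t with
          | Sum.inl k => k
          | Sum.inr _ => k₀) (fun k => ⟨Sum.inl k, rfl⟩) Y

end Pool.Agent.Results.MP_2734af_lc.NegativeAnswer
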